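import Pool.Agent.Y588.Fnl

/-!
# The stable core of the stable core can be smaller than the stable core

A set `V : Set ZFSet.{0}` is viewed as the structure `(V, ∈)`. The transitive models `IsZFC V` of
ZFC and the formulas `Fml` of set theory are those of `Pool.Agent.W868.Defs`; the stability
predicate `Stab V` of the model `V`, the levels `LA A α` of the constructible hierarchy relative
to the class `A`, and the stable core `StableCore V`, which is `L[S]` for `S = Stab V` as computed
in `V`, are defined in `Pool.Agent.Y588.SDefs`.
-/

set_option autoImplicit false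

namespace Pool.Agent.Results.MP_6d6f9c_lc.StableCoreOfStableCore

open Pool.Agent.W868 Pool.Agent.Y588

/-- There is a countable transitive model `V` of ZFC such that its stable core is a model of ZFC,
the stable core of its stable core is a model of ZFC with the same ordinals as `V`, and the stable
core of the stable core is a proper subclass of the stable core. Moreover the stable core of the
stable core of `V` is the constructible universe of `V`. -/
theorem result : ∃ V : Set ZFSet.{0}, V.Countable ∧ IsZFC V ∧
    IsZFC (StableCore V) ∧ StableCore V ⊆ V ∧
    IsZFC (StableCore (StableCore V)) ∧ StableCore (StableCore V) ⊂ StableCore V ∧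
    (∀ x ∈ V, x.IsOrdinal → x ∈ StableCore (StableCore V)) ∧
    StableCore (StableCore V) =
      {x | ∃ α : Ordinal.{0}, α.toZFSet ∈ V ∧ x ∈ LA ∅ α} := by
  obtain ⟨N, hc, hL⟩ := exists_countable_L
  obtain ⟨V, -, h1, h2, h3, h4, h5, h6, h7⟩ := main_theorem hc hL
  refine ⟨V, h1, h2, h6, h7, ?_⟩
  rw [h4]
  exact ⟨isZFC_of_gc hL.zf hL.gc, h5, fun x hx ho => (h3 x ho).2 hx, L_eq hL h3⟩

end Pool.Agent.Results.MP_6d6f9c_lc.StableCoreOfStableCore
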